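import Mathlib

set_option autoImplicit false

namespace Pool.Agent.Results.MP_091ced_gt.Closed

open Set Topology

universe u

/-- The derived set: the points `x` in the closure of `A \ {x}`. -/
def dset {X : Type u} [TopologicalSpace X] (A : Set X) : Set X :=
  {x | x ∈ closure (A \ {x})}

theorem result (X : Type u) [TopologicalSpace X] [T0Space X] (A : Set X) :
    IsClosed (dset (dset A)) := by
  rw [← closure_subset_iff_isClosed]
  intro x hx
  by_contra hx2
  -- an open `U ∋ x` missing `A^d \ {x}`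
  have h1 : ∃ U, IsOpen U ∧ x ∈ U ∧ ∀ z ∈ U, z ∈ dset A → z = x := by
    have : x ∉ closure (dset A \ {x}) := hx2
    rw [mem_closure_iff] at this
    push Not at this
    obtain ⟨U, hU, hxU, hUe⟩ := this
    refine ⟨U, hU, hxU, fun z hz hzA => ?_⟩
    by_contra hne
    have : z ∈ U ∩ (dset A \ {x}) := ⟨hz, hzA, hne⟩
    rw [hUe] at this
    exact this
  obtain ⟨U, hU, hxU, hUx⟩ := h1
  obtain ⟨y, hyU, hy⟩ := mem_closure_iff.1 hx U hU hxU
  have hyx : y ≠ x := by
    rintro rfl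
    exact hx2 hy
  -- every open neighbourhood of `y` contains `x`, and `x ∈ A^d`
  have key : ∀ V, IsOpen V → y ∈ V → x ∈ V ∧ x ∈ dset A := by
    intro V hV hyV
    obtain ⟨z, ⟨hzV, hzU⟩, hzA, -⟩ :=
      mem_closure_iff.1 (show y ∈ closure (dset A \ {y}) from hy) (V ∩ U) (hV.inter hU) ⟨hyV, hyU⟩
    have := hUx z hzU hzA
    subst this
    exact ⟨hzV, hzA⟩
  have hxA : x ∈ dset A := (key univ isOpen_univ (mem_univ _)).2
  have hyA : y ∉ dset A := fun h => hyx (hUx y hyU h)
  have h2 : ∃ V, IsOpen V ∧ y ∈ V ∧ ∀ z ∈ V, z ∈ A → z = y := by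
    have : y ∉ closure (A \ {y}) := hyA
    rw [mem_closure_iff] at this
    push Not at this
    obtain ⟨V, hV, hyV, hVe⟩ := this
    refine ⟨V, hV, hyV, fun z hz hzA => ?_⟩
    by_contra hne
    have : z ∈ V ∩ (A \ {y}) := ⟨hz, hzA, hne⟩
    rw [hVe] at this
    exact this
  obtain ⟨V, hV, hyV, hVy⟩ := h2
  have hxV : x ∈ V := (key V hV hyV).1
  have key2 : ∀ W, IsOpen W → x ∈ W → y ∈ W := by
    intro W hW hxW
    obtain ⟨z, ⟨hzW, hzV⟩, hzA, -⟩ :=
      mem_closure_iff.1 (show x ∈ closure (A \ {x}) from hxA) (W ∩ V) (hW.inter hV) ⟨hxW, hxV⟩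
    have := hVy z hzV hzA
    subst this
    exact hzW
  apply hyx
  apply Inseparable.eq
  rw [inseparable_iff_forall_isOpen]
  exact fun s hs => ⟨fun h => (key s hs h).1, key2 s hs⟩

end Pool.Agent.Results.MP_091ced_gt.Closed
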